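import Pool.Agent.Q4.SPC.Stm5

/-!
# Project SPC, job TL: transport of the structure `Lc` along an isomorphism
-/

set_option autoImplicit false

namespace Pool.Agent.Q31.SPC

open Q4.SPC

theorem tl : TL := by
  intro W _ G G' D D' _ _ _ _ P det L t P' det' L' t' e hP hdet hL ht h
  have hs : ∀ g : G, g ∈ L ↔ e.symm g ∈ L' := fun g => by rw [hL, e.apply_symm_apply]
  have hds : ∀ g : G, det g = 1 ↔ det' (e.symm g) = 1 := fun g => by
    rw [hdet, e.apply_symm_apply]
  refine ⟨?_, ?_, ?_, ?_, ?_⟩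
  · intro κ hκ
    obtain ⟨κ', l, hl, h1, h2, h3⟩ := h.dec (e κ) (hP κ hκ)
    refine ⟨e.symm κ', e.symm l, (hs l).1 hl, ?_, ?_, ?_⟩
    · rw [← map_mul, ← h1, e.symm_apply_apply]
    · intro x hx
      apply e.injective
      rw [map_mul, map_mul, e.apply_symm_apply]
      exact h2 _ ((hL x).1 hx)
    · apply e.injective
      rw [map_mul, map_mul, e.apply_symm_apply, ht]
      exact h3
  · -- the orbit
    have hwd : ∀ a b : G', (QuotientGroup.leftRel L').r a b → ((e a : G) : G ⧸ L) = (e b : G) := by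
      intro a b hab
      rw [QuotientGroup.eq, ← map_inv, ← map_mul, ← hL]
      exact QuotientGroup.leftRel_apply.1 hab
    let f : G' ⧸ L' → G ⧸ L := Quotient.lift (fun a : G' => ((e a : G) : G ⧸ L)) hwd
    have hf : ∀ a : G', f (a : G' ⧸ L') = ((e a : G) : G ⧸ L) := fun a => rfl
    have hinj : Function.Injective f := by
      intro x y hxy
      induction x using QuotientGroup.induction_on with
      | H a =>
      induction y using QuotientGroup.induction_on with
      | H b =>
      rw [hf, hf, QuotientGroup.eq, ← map_inv, ← map_mul, ← hL] at hxy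
      exact QuotientGroup.eq.2 hxy
    refine Set.Finite.of_finite_image (f := f) (h.fin.subset ?_) hinj.injOn
    rintro _ ⟨_, ⟨l, rfl⟩, rfl⟩
    refine ⟨⟨e l, (hL _).1 l.2⟩, ?_⟩
    show (⟨e l, (hL _).1 l.2⟩ : L) • ((t : G) : G ⧸ L) = f ((l : L') • ((t' : G') : G' ⧸ L'))
    have e1 : ((l : L') • ((t' : G') : G' ⧸ L')) = (((l : G') * t' : G') : G' ⧸ L') := rfl
    have e2 : (⟨e l, (hL _).1 l.2⟩ : L) • ((t : G) : G ⧸ L) = ((e l * t : G) : G ⧸ L) := rfl
    rw [e1, e2, hf, map_mul, ht]
  · intro l hl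
    obtain ⟨l', hl', h1, h2⟩ := h.rep (e l) ((hL l).1 hl)
    refine ⟨e.symm l', (hs l').1 hl', (hds l').1 h1, ?_⟩
    rw [QuotientGroup.eq] at h2 ⊢
    rw [hL, map_mul, map_inv, map_mul, map_mul, e.apply_symm_apply, ht]
    exact h2
  · intro φ hφ g hg hd
    have h1 := h.per (fun x y => φ (e.symm x) (e.symm y)) (by
      intro a ha b hb hda hdb
      funext y
      have := hφ (e.symm a) ((hs a).1 ha) (e.symm b) ((hs b).1 hb) ((hds a).1 hda) ((hds b).1 hdb)
      show φ (e.symm (a * b)) (e.symm y) = _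
      rw [map_mul, this]
      rfl) (e g) ((hL g).1 hg) ((hdet g).1 hd)
    funext y
    have h2 := congrFun h1 (e y)
    simpa using h2
  · rw [hdet, ht]
    exact h.one

end Pool.Agent.Q31.SPC
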